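import Mathlib
import Pool.Agent.Cov.PNT

/-! Partitioning rectangular grids into general-position sets. -/

set_option autoImplicit false

open Filter Topology

namespace Pool.Agent.Results.MP_1b5634_co.Rectangles

/-- The grid `{1, …, m} × {1, …, n}` of integer points (`m` columns, `n` rows). -/
noncomputable def grid (m n : ℕ) : Finset (ℤ × ℤ) := Finset.Icc (1 : ℤ) m ×ˢ Finset.Icc (1 : ℤ) n

/-- An integer point, seen in the Euclidean plane. -/
noncomputable def toPlane (p : ℤ × ℤ) : EuclideanSpace ℝ (Fin 2) := !₂[(p.1 : ℝ), (p.2 : ℝ)]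

/-- No three (distinct) points of `S` lie on a common line. -/
def GeneralPosition (S : Set (ℤ × ℤ)) : Prop :=
  ∀ a ∈ S, ∀ b ∈ S, ∀ c ∈ S, a ≠ b → b ≠ c → a ≠ c →
    ¬ Collinear ℝ {toPlane a, toPlane b, toPlane c}

/-- `S` can be partitioned into (at most) `k` sets in general position: `f` gives the number
of the part of each point. -/
def Partitionable (S : Finset (ℤ × ℤ)) (k : ℕ) : Prop :=
  ∃ f : ℤ × ℤ → ℕ, (∀ p ∈ S, f p < k) ∧ ∀ i, GeneralPosition {p | p ∈ S ∧ f p = i}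

/-- `gp(S)`: the least number of general-position sets into which `S` can be partitioned. -/
noncomputable def gp (S : Finset (ℤ × ℤ)) : ℕ := sInf {k | Partitionable S k}

lemma collinear_cross {a b c : ℤ × ℤ} (h : Collinear ℝ {toPlane a, toPlane b, toPlane c}) :
    (b.1 - a.1) * (c.2 - a.2) = (c.1 - a.1) * (b.2 - a.2) := by
  have ha : toPlane a ∈ ({toPlane a, toPlane b, toPlane c} : Set (EuclideanSpace ℝ (Fin 2))) := by
    simp
  rw [collinear_iff_of_mem ha] at h
  obtain ⟨v, hv⟩ := h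
  obtain ⟨r, hr⟩ := hv (toPlane b) (by simp)
  obtain ⟨s, hs⟩ := hv (toPlane c) (by simp)
  have hr0 := congrArg (fun z : EuclideanSpace ℝ (Fin 2) => z 0) hr
  have hr1 := congrArg (fun z : EuclideanSpace ℝ (Fin 2) => z 1) hr
  have hs0 := congrArg (fun z : EuclideanSpace ℝ (Fin 2) => z 0) hs
  have hs1 := congrArg (fun z : EuclideanSpace ℝ (Fin 2) => z 1) hs
  simp [toPlane] at hr0 hr1 hs0 hs1
  have : ((b.1 : ℝ) - a.1) * (c.2 - a.2) = (c.1 - a.1) * (b.2 - a.2) := by
    rw [hr0, hr1, hs0, hs1]; ring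
  exact_mod_cast this

/-- three points with the same first coordinate are collinear -/
lemma collinear_fst {a b c : ℤ × ℤ} (h1 : b.1 = a.1) (h2 : c.1 = a.1) :
    Collinear ℝ {toPlane a, toPlane b, toPlane c} := by
  have ha : toPlane a ∈ ({toPlane a, toPlane b, toPlane c} : Set (EuclideanSpace ℝ (Fin 2))) := by
    simp
  rw [collinear_iff_of_mem ha]
  refine ⟨!₂[(0 : ℝ), 1], ?_⟩
  have key : ∀ z : ℤ × ℤ, z.1 = a.1 →
      ∃ r : ℝ, toPlane z = r • (!₂[(0 : ℝ), 1] : EuclideanSpace ℝ (Fin 2)) +ᵥ toPlane a := by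
    intro z hz
    refine ⟨(z.2 : ℝ) - a.2, ?_⟩
    ext i
    fin_cases i <;> simp [toPlane, hz]
  intro z hz
  simp only [Set.mem_insert_iff, Set.mem_singleton_iff] at hz
  rcases hz with rfl | rfl | rfl
  · exact key a rfl
  · exact key b h1
  · exact key c h2

/-- three points with the same second coordinate are collinear -/
lemma collinear_snd {a b c : ℤ × ℤ} (h1 : b.2 = a.2) (h2 : c.2 = a.2) :
    Collinear ℝ {toPlane a, toPlane b, toPlane c} := by
  have ha : toPlane a ∈ ({toPlane a, toPlane b, toPlane c} : Set (EuclideanSpace ℝ (Fin 2))) := by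
    simp
  rw [collinear_iff_of_mem ha]
  refine ⟨!₂[(1 : ℝ), 0], ?_⟩
  have key : ∀ z : ℤ × ℤ, z.2 = a.2 →
      ∃ r : ℝ, toPlane z = r • (!₂[(1 : ℝ), 0] : EuclideanSpace ℝ (Fin 2)) +ᵥ toPlane a := by
    intro z hz
    refine ⟨(z.1 : ℝ) - a.1, ?_⟩
    ext i
    fin_cases i <;> simp [toPlane, hz]
  intro z hz
  simp only [Set.mem_insert_iff, Set.mem_singleton_iff] at hz
  rcases hz with rfl | rfl | rfl
  · exact key a rfl
  · exact key b h1
  · exact key c h2

/-- the parabolas `y = x² + c` modulo `p` -/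
lemma parabolas {p : ℕ} (hp : p.Prime) {S : Finset (ℤ × ℤ)}
    (h1 : ∀ a ∈ S, ∀ b ∈ S, (p : ℤ) ∣ b.1 - a.1 → a.1 = b.1)
    (h2 : ∀ a ∈ S, ∀ b ∈ S, ∀ c ∈ S, a.1 = b.1 → b.1 = c.1 → (p : ℤ) ∣ b.2 - a.2 →
      (p : ℤ) ∣ c.2 - b.2 → a = b ∨ b = c ∨ a = c) : Partitionable S p := by
  have hp0 : (0 : ℤ) < p := by exact_mod_cast hp.pos
  refine ⟨fun q => ((q.2 - q.1 ^ 2) % (p : ℤ)).toNat, ?_, ?_⟩
  · intro q _
    have h1 := Int.emod_nonneg (q.2 - q.1 ^ 2) hp0.ne'
    have h2 := Int.emod_lt_of_pos (q.2 - q.1 ^ 2) hp0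
    have : (((q.2 - q.1 ^ 2) % (p : ℤ)).toNat : ℤ) < p := by
      rw [Int.toNat_of_nonneg h1]; exact h2
    exact_mod_cast this
  · intro i a ha b hb c hc hab hbc hac hcol
    simp only [Set.mem_ofPred_eq] at ha hb hc
    obtain ⟨ha, a5⟩ := ha
    obtain ⟨hb, b5⟩ := hb
    obtain ⟨hc, c5⟩ := hc
    have key : ∀ u v : ℤ × ℤ, ((u.2 - u.1 ^ 2) % (p : ℤ)).toNat = i →
        ((v.2 - v.1 ^ 2) % (p : ℤ)).toNat = i →
        (p : ℤ) ∣ (v.2 - v.1 ^ 2) - (u.2 - u.1 ^ 2) := by
      intro u v hu hv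
      have h1 := Int.emod_nonneg (u.2 - u.1 ^ 2) hp0.ne'
      have h2 := Int.emod_nonneg (v.2 - v.1 ^ 2) hp0.ne'
      have h3 : (u.2 - u.1 ^ 2) % (p : ℤ) = (v.2 - v.1 ^ 2) % (p : ℤ) := by omega
      exact Int.ModEq.dvd h3
    have kab := key a b a5 b5
    have kac := key a c a5 c5
    have kbc := key b c b5 c5
    have hcr := collinear_cross hcol
    have hpp : Prime (p : ℤ) := Nat.prime_iff_prime_int.mp hp
    -- if two points are in the same column then all three are
    have fin : a.1 = b.1 → b.1 = c.1 → False := by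
      intro e1 e2
      have k1 : (p : ℤ) ∣ b.2 - a.2 := by
        have := kab; rw [e1] at this; convert this using 1; ring
      have k2 : (p : ℤ) ∣ c.2 - b.2 := by
        have := kbc; rw [e2] at this; convert this using 1; ring
      rcases h2 a ha b hb c hc e1 e2 k1 k2 with h | h | h
      · exact hab h
      · exact hbc h
      · exact hac h
    have fab : a.1 = b.1 → False := by
      intro e
      have h3 : (c.1 - a.1) * (b.2 - a.2) = 0 := by rw [← hcr, e]; ring
      rcases mul_eq_zero.1 h3 with h | h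
      · exact fin e (by omega)
      · exact hab (Prod.ext e (by omega))
    have fac : a.1 = c.1 → False := by
      intro e
      have h3 : (b.1 - a.1) * (c.2 - a.2) = 0 := by rw [hcr, e]; ring
      rcases mul_eq_zero.1 h3 with h | h
      · exact fab (by omega)
      · exact hac (Prod.ext e (by omega))
    have fbc : b.1 = c.1 → False := by
      intro e
      have h3 : (b.1 - a.1) * (c.2 - b.2) = 0 := by
        have : (b.1 - a.1) * (c.2 - b.2) =
          (b.1 - a.1) * (c.2 - a.2) - (b.1 - a.1) * (b.2 - a.2) := by ring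
        rw [this, hcr, e]; ring
      rcases mul_eq_zero.1 h3 with h | h
      · exact fab (by omega)
      · exact hbc (Prod.ext e (by omega))
    have hdiv : (p : ℤ) ∣ (b.1 - a.1) * ((c.1 - a.1) * (c.1 - b.1)) := by
      have e : (b.1 - a.1) * ((c.1 - a.1) * (c.1 - b.1)) =
          (c.1 - a.1) * ((b.2 - b.1 ^ 2) - (a.2 - a.1 ^ 2)) -
          (b.1 - a.1) * ((c.2 - c.1 ^ 2) - (a.2 - a.1 ^ 2)) := by
        linear_combination hcr
      rw [e]
      exact dvd_sub (Dvd.dvd.mul_left kab _) (Dvd.dvd.mul_left kac _)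
    rcases hpp.dvd_or_dvd hdiv with h | h
    · exact fab (h1 a ha b hb h)
    · rcases hpp.dvd_or_dvd h with h | h
      · exact fac (h1 a ha c hc h)
      · exact fbc (h1 b hb c hc h)

lemma small {p : ℕ} : ∀ z : ℤ, (p : ℤ) ∣ z → -(p : ℤ) < z → z < p → z = 0 := by
  intro z hz h1 h2
  exact Int.eq_zero_of_abs_lt_dvd hz (abs_lt.mpr ⟨h1, h2⟩)

lemma part_rect {m n p : ℕ} (hp : p.Prime) (hm : m ≤ p) (hn : n ≤ 2 * p) :
    Partitionable (grid m n) p := by
  have hm' : (m : ℤ) ≤ p := by exact_mod_cast hm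
  have hn' : (n : ℤ) ≤ 2 * p := by exact_mod_cast hn
  have hp0 : (0 : ℤ) < p := by exact_mod_cast hp.pos
  refine parabolas hp ?_ ?_
  · intro a ha b hb h
    simp only [grid, Finset.mem_product, Finset.mem_Icc] at ha hb
    have := small _ h (by omega) (by omega)
    omega
  · intro a ha b hb c hc e1 e2 k1 k2
    simp only [grid, Finset.mem_product, Finset.mem_Icc] at ha hb hc
    obtain ⟨s, hs⟩ := k1
    obtain ⟨t, ht⟩ := k2
    by_contra hne
    push Not at hne
    obtain ⟨n1, n2, n3⟩ := hne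
    have m1 : s ≠ 0 := by
      rintro rfl
      exact n1 (Prod.ext e1 (by linarith))
    have m2 : t ≠ 0 := by
      rintro rfl
      exact n2 (Prod.ext e2 (by linarith))
    have m3 : s + t ≠ 0 := by
      intro h
      have : c.2 - a.2 = p * (s + t) := by linear_combination hs + ht
      rw [h] at this
      exact n3 (Prod.ext (e1.trans e2) (by linarith))
    have b1 : (p : ℤ) * s < 2 * p := by omega
    have b2 : -(2 * (p : ℤ)) < p * s := by omega
    have b3 : (p : ℤ) * t < 2 * p := by omega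
    have b4 : -(2 * (p : ℤ)) < p * t := by omega
    have b5 : (p : ℤ) * (s + t) < 2 * p := by
      have : c.2 - a.2 = p * (s + t) := by linear_combination hs + ht
      omega
    have b6 : -(2 * (p : ℤ)) < p * (s + t) := by
      have : c.2 - a.2 = p * (s + t) := by linear_combination hs + ht
      omega
    have c1 : s < 2 := by nlinarith
    have c2 : -2 < s := by nlinarith
    have c3 : t < 2 := by nlinarith
    have c4 : -2 < t := by nlinarith
    have c5 : s + t < 2 := by nlinarith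
    have c6 : -2 < s + t := by nlinarith
    omega

/-- `gp` is attained -/
lemma gp_spec (S : Finset (ℤ × ℤ)) : Partitionable S (gp S) := by
  have hne : {k | Partitionable S k}.Nonempty := by
    classical
    let e := S.equivFin
    refine ⟨S.card, fun q => if h : q ∈ S then (e ⟨q, h⟩ : ℕ) else 0, ?_, ?_⟩
    · intro q hq
      simp only [hq, dif_pos]
      exact (e ⟨q, hq⟩).2
    · intro i a ha b hb c hc hab _ _ _
      obtain ⟨ha1, ha2⟩ := ha
      obtain ⟨hb1, hb2⟩ := hb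
      simp only [ha1, hb1, dif_pos] at ha2 hb2
      have : e ⟨a, ha1⟩ = e ⟨b, hb1⟩ := Fin.ext (ha2.trans hb2.symm)
      have := congrArg Subtype.val (e.injective this)
      exact hab this
  exact Nat.sInf_mem hne

lemma gp_le {S : Finset (ℤ × ℤ)} {k : ℕ} (h : Partitionable S k) : gp S ≤ k := Nat.sInf_le h

/-- a line with `t` points needs at least `t / 2` parts -/
lemma lower {S T : Finset (ℤ × ℤ)} (hTS : T ⊆ S)
    (hT : ∀ a ∈ T, ∀ b ∈ T, ∀ c ∈ T, Collinear ℝ {toPlane a, toPlane b, toPlane c}) :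
    T.card ≤ 2 * gp S := by
  classical
  obtain ⟨f, hf, hg⟩ := gp_spec S
  have h1 : T.card ≤ 2 * (Finset.range (gp S)).card := by
    refine Finset.card_le_mul_card_image_of_maps_to (f := f)
      (fun q hq => Finset.mem_range.2 (hf q (hTS hq))) 2 ?_
    intro i _
    by_contra hlt
    push Not at hlt
    obtain ⟨a, ha, b, hb, c, hc, hab, hac, hbc⟩ := Finset.two_lt_card.1 hlt
    rw [Finset.mem_filter] at ha hb hc
    exact hg i a ⟨hTS ha.1, ha.2⟩ b ⟨hTS hb.1, hb.2⟩ c ⟨hTS hc.1, hc.2⟩ hab hbc hac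
      (hT a ha.1 b hb.1 c hc.1)
  rwa [Finset.card_range] at h1

lemma lower_rows {m n : ℕ} (hm : 1 ≤ m) : n ≤ 2 * gp (grid m n) := by
  classical
  have h := lower (S := grid m n) (T := {(1 : ℤ)} ×ˢ Finset.Icc (1 : ℤ) n) ?_ ?_
  · simpa using h
  · intro q hq
    simp only [grid, Finset.mem_product, Finset.mem_Icc, Finset.mem_singleton] at hq ⊢
    have : (1 : ℤ) ≤ m := by exact_mod_cast hm
    omega
  · intro a ha b hb c hc
    simp only [Finset.mem_product, Finset.mem_singleton] at ha hb hc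
    exact collinear_fst (hb.1.trans ha.1.symm) (hc.1.trans ha.1.symm)

lemma lower_cols {m n : ℕ} (hn : 1 ≤ n) : m ≤ 2 * gp (grid m n) := by
  classical
  have h := lower (S := grid m n) (T := Finset.Icc (1 : ℤ) m ×ˢ {(1 : ℤ)}) ?_ ?_
  · simpa using h
  · intro q hq
    simp only [grid, Finset.mem_product, Finset.mem_Icc, Finset.mem_singleton] at hq ⊢
    have : (1 : ℤ) ≤ n := by exact_mod_cast hn
    omega
  · intro a ha b hb c hc
    simp only [Finset.mem_product, Finset.mem_singleton] at ha hb hc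
    exact collinear_snd (hb.2.trans ha.2.symm) (hc.2.trans ha.2.symm)

lemma exists_prime_between {ε : ℝ} (hε : 0 < ε) :
    ∀ᶠ x : ℝ in atTop, ∃ p : ℕ, p.Prime ∧ x < p ∧ (p : ℝ) ≤ (1 + ε) * x := by
  have h1 := Pool.Agent.Cov.PNT.theta_div_tendsto
  have h2 : Tendsto (fun x : ℝ => Chebyshev.theta ((1 + ε) * x) / x) atTop (𝓝 (1 + ε)) := by
    have h3 := (h1.comp (tendsto_id.const_mul_atTop (by linarith : (0 : ℝ) < 1 + ε))).mul_const
      (1 + ε)
    rw [one_mul] at h3
    refine h3.congr' ?_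
    filter_upwards [eventually_gt_atTop 0] with x hx
    simp only [Function.comp, id]
    field_simp
  have h4 := h2.sub h1
  have h5 : ∀ᶠ x : ℝ in atTop, 0 < Chebyshev.theta ((1 + ε) * x) / x - Chebyshev.theta x / x :=
    h4.eventually (lt_mem_nhds (by linarith))
  filter_upwards [h5, eventually_gt_atTop 0] with x hx hx0
  by_contra hno
  push Not at hno
  have : Chebyshev.theta ((1 + ε) * x) ≤ Chebyshev.theta x := by
    unfold Chebyshev.theta
    apply Finset.sum_le_sum_of_subset_of_nonneg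
    · intro p hp
      simp only [Finset.mem_filter, Finset.mem_Ioc] at hp ⊢
      obtain ⟨⟨hp0, hp1⟩, hpp⟩ := hp
      have hp2 : (p : ℝ) ≤ (1 + ε) * x := (Nat.le_floor_iff (by positivity)).mp hp1
      refine ⟨⟨hp0, ?_⟩, hpp⟩
      apply Nat.le_floor
      by_contra hlt
      push Not at hlt
      exact absurd hp2 (not_le.mpr (hno p hpp hlt))
    · intro i hi _
      simp only [Finset.mem_filter, Finset.mem_Ioc] at hi
      exact Real.log_nonneg (by exact_mod_cast hi.2.one_le)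
  rw [← sub_div] at hx
  have := div_nonpos_of_nonpos_of_nonneg (sub_nonpos.mpr this) hx0.le
  linarith

/-- the asymptotic upper bound -/
lemma upper {ε : ℝ} (hε : 0 < ε) : ∃ N : ℕ, ∀ m n : ℕ, N ≤ n →
    (gp (grid m n) : ℝ) ≤ (1 + ε) * max (m : ℝ) ((n : ℝ) / 2) := by
  obtain ⟨X, hX⟩ := eventually_atTop.1 (exists_prime_between hε)
  refine ⟨2 * ⌈X⌉₊, fun m n hn => ?_⟩
  have h1 : X ≤ max (m : ℝ) ((n : ℝ) / 2) := by
    refine le_trans ?_ (le_max_right _ _)
    have h2 : X ≤ ⌈X⌉₊ := Nat.le_ceil X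
    have h3 : (2 : ℝ) * ⌈X⌉₊ ≤ n := by exact_mod_cast hn
    linarith
  obtain ⟨p, hp, h2, h3⟩ := hX _ h1
  have h4 : (m : ℝ) < p := lt_of_le_of_lt (le_max_left _ _) h2
  have h5 : (n : ℝ) / 2 < p := lt_of_le_of_lt (le_max_right _ _) h2
  have h6 : m ≤ p := by exact_mod_cast h4.le
  have h7 : n ≤ 2 * p := by
    have : (n : ℝ) ≤ 2 * p := by linarith
    exact_mod_cast this
  exact le_trans (by exact_mod_cast gp_le (part_rect hp h6 h7)) h3

/-- **Rectangular grids.** (1) Let `p` be a prime and `S` a finite set of integer points such that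
distinct first coordinates of points of `S` are incongruent modulo `p`, and no three points of a
column of `S` have second coordinates congruent modulo `p`.  Then `S` can be partitioned into `p`
sets in general position.  (2) `gp({1..m} × {1..n}) ≤ p` for every prime `p ≥ max(m, n/2)`.
(3) If `p` is a prime and `1 ≤ m ≤ p`, then `gp({1..m} × {1..2p}) = p` and
`gp({1..m} × {1..2p-1}) = p`.  (4) `gp ≥ max(m, n) / 2`, and for every `ε > 0` one has
`gp ≤ (1 + ε) max(m, n/2)` for all large `n` and all `m`.  (5) Hence for grids with `n ≥ 2m` the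
optimal constant is `1/2`: `gp({1..m} × {1..n}) / n → 1/2`, uniformly in `1 ≤ m ≤ n/2`.
(6) For square grids, `limsup gp(G_n) / n ≤ 1`. -/
theorem result :
    (∀ (p : ℕ) (S : Finset (ℤ × ℤ)), p.Prime →
      (∀ a ∈ S, ∀ b ∈ S, (p : ℤ) ∣ b.1 - a.1 → a.1 = b.1) →
      (∀ a ∈ S, ∀ b ∈ S, ∀ c ∈ S, a.1 = b.1 → b.1 = c.1 → (p : ℤ) ∣ b.2 - a.2 →
        (p : ℤ) ∣ c.2 - b.2 → a = b ∨ b = c ∨ a = c) → Partitionable S p ∧ gp S ≤ p) ∧
    (∀ m n p : ℕ, p.Prime → m ≤ p → n ≤ 2 * p → gp (grid m n) ≤ p) ∧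
    (∀ m p : ℕ, p.Prime → 1 ≤ m → m ≤ p →
      gp (grid m (2 * p)) = p ∧ gp (grid m (2 * p - 1)) = p) ∧
    ((∀ m n : ℕ, 1 ≤ m → 1 ≤ n → max (m : ℝ) n / 2 ≤ gp (grid m n)) ∧
      ∀ ε : ℝ, 0 < ε → ∃ N : ℕ, ∀ m n : ℕ, N ≤ n →
        (gp (grid m n) : ℝ) ≤ (1 + ε) * max (m : ℝ) ((n : ℝ) / 2)) ∧
    (∀ ε : ℝ, 0 < ε → ∃ N : ℕ, ∀ m n : ℕ, N ≤ n → 1 ≤ m → 2 * m ≤ n →
      |(gp (grid m n) : ℝ) / n - 1 / 2| ≤ ε) ∧
    (∀ ε : ℝ, 0 < ε → ∃ N : ℕ, ∀ n : ℕ, N ≤ n → (gp (grid n n) : ℝ) / n ≤ 1 + ε) ∧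
    (∀ S : Finset (ℤ × ℤ), Partitionable S (gp S)) := by
  refine ⟨?_, ?_, ?_, ⟨?_, ?_⟩, ?_, ?_, gp_spec⟩
  · intro p S hp h1 h2
    exact ⟨parabolas hp h1 h2, gp_le (parabolas hp h1 h2)⟩
  · intro m n p hp hm hn
    exact gp_le (part_rect hp hm hn)
  · intro m p hp h1 h2
    have a1 := gp_le (part_rect (n := 2 * p) hp h2 le_rfl)
    have a2 := gp_le (part_rect (n := 2 * p - 1) hp h2 (by omega))
    have b1 := lower_rows (m := m) (n := 2 * p) h1
    have b2 := lower_rows (m := m) (n := 2 * p - 1) h1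
    have := hp.pos
    omega
  · intro m n hm hn
    have h1 : (n : ℝ) ≤ 2 * gp (grid m n) := by exact_mod_cast lower_rows hm
    have h2 : (m : ℝ) ≤ 2 * gp (grid m n) := by exact_mod_cast lower_cols hn
    have := max_le h2 h1
    linarith
  · intro ε hε
    exact upper hε
  · intro ε hε
    obtain ⟨N, hN⟩ := upper (ε := ε) hε
    refine ⟨max N 1, fun m n hn hm hmn => ?_⟩
    have hn1 : 1 ≤ n := le_trans (le_max_right _ _) hn
    have hn0 : (0 : ℝ) < n := by exact_mod_cast hn1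
    have h1 : (n : ℝ) ≤ 2 * gp (grid m n) := by exact_mod_cast lower_rows hm
    have h2 := hN m n (le_trans (le_max_left _ _) hn)
    have h3 : max (m : ℝ) ((n : ℝ) / 2) = (n : ℝ) / 2 := by
      apply max_eq_right
      have : (2 : ℝ) * m ≤ n := by exact_mod_cast hmn
      linarith
    rw [h3] at h2
    rw [abs_le]
    constructor
    · have : 1 / 2 ≤ (gp (grid m n) : ℝ) / n := by
        rw [le_div_iff₀ hn0]; linarith
      linarith
    · have : (gp (grid m n) : ℝ) / n ≤ 1 / 2 + ε / 2 := by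
        rw [div_le_iff₀ hn0]; linarith
      linarith
  · intro ε hε
    obtain ⟨N, hN⟩ := upper (ε := ε) hε
    refine ⟨max N 1, fun n hn => ?_⟩
    have hn1 : 1 ≤ n := le_trans (le_max_right _ _) hn
    have hn0 : (0 : ℝ) < n := by exact_mod_cast hn1
    have h2 := hN n n (le_trans (le_max_left _ _) hn)
    have h3 : max (n : ℝ) ((n : ℝ) / 2) = (n : ℝ) := max_eq_left (by linarith)
    rw [h3] at h2
    rw [div_le_iff₀ hn0]
    exact h2

end Pool.Agent.Results.MP_1b5634_co.Rectangles
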